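import Pool.Agent.N364.GP.CIA
import Pool.Agent.W602.GT.KDefs
import Pool.Agent.TH466.QG.Low

/-!
# Logarithmic canonical forms on the complement of a divisor with normal crossings in a smooth complete
intersection
-/

set_option autoImplicit false
set_option linter.unusedSectionVars false

open FF MvPolynomial Pool.Agent.W602.GT Pool.Agent.W603.LV
open Pool.Agent.N162.GP Pool.Agent.N364.GP

namespace Pool.Agent.Run7.h260.LQ

section cert

variable {M : ℕ} {K : Type} [Field K] [Algebra ℂ K] {γ : Type} [Fintype γ] [DecidableEq γ]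

/-- the gradients -/
noncomputable def grd (F : γ → MvPolynomial (Fin (M + 2)) ℂ) (y : Fin (M + 2) → K)
    (l : Fin (M + 2)) (i : γ) : K := aeval y (pderiv l (F i))

/-- the minors, as polynomials -/
noncomputable def mpo (F : γ → MvPolynomial (Fin (M + 2)) ℂ) (I : γ → Fin (M + 2)) :
    MvPolynomial (Fin (M + 2)) ℂ := (Matrix.of fun k i => pderiv (I k) (F i)).det

theorem aeval_mpo (F : γ → MvPolynomial (Fin (M + 2)) ℂ) (I : γ → Fin (M + 2))
    (y : Fin (M + 2) → K) : aeval y (mpo F I) = mnr (grd F y) I := by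
  unfold mpo mnr
  rw [AlgHom.map_det]
  rfl

theorem certG {F : γ → MvPolynomial (Fin (M + 2)) ℂ}
    (hs : ∀ z : Fin (M + 2) → ℂ, z ≠ 0 → (∀ i, eval z (F i) = 0) →
      LinearIndependent ℂ fun (i : γ) (l : Fin (M + 2)) => eval z (pderiv l (F i)))
    (j : Fin (M + 2)) : ∃ N : ℕ, (X j : MvPolynomial (Fin (M + 2)) ℂ) ^ N ∈
      Ideal.span (Set.range F ∪ Set.range (mpo F)) := by
  obtain ⟨J, hJ⟩ : ∃ J, J = Ideal.span (Set.range F ∪ Set.range (mpo F)) := ⟨_, rfl⟩
  rw [← hJ]
  have h1 : (X j : MvPolynomial (Fin (M + 2)) ℂ) ∈ vanishingIdeal ℂ (zeroLocus ℂ J) := by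
    rw [mem_vanishingIdeal_iff]
    intro z hz
    rw [mem_zeroLocus_iff] at hz
    have hz0 : z = 0 := by
      by_contra hne
      have h2 : ∀ i, eval z (F i) = 0 := fun i => by
        have := hz (F i) (by rw [hJ]; exact Ideal.subset_span (Or.inl ⟨i, rfl⟩))
        exact this
      have h3 := hs z hne h2
      obtain ⟨I, hI⟩ := exists_minor (grd F z) h3
      apply hI
      rw [← aeval_mpo]
      exact hz (mpo F I) (by rw [hJ]; exact Ideal.subset_span (Or.inr ⟨I, rfl⟩))
    rw [hz0, aeval_X]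
    rfl
  rw [vanishingIdeal_zeroLocus_eq_radical] at h1
  exact h1

/-- some minor is a unit at a place where the coordinates are regular, one of them is `1`, and the
equations are in the maximal ideal -/
theorem minor_unitG {F : γ → MvPolynomial (Fin (M + 2)) ℂ}
    (hs : ∀ z : Fin (M + 2) → ℂ, z ≠ 0 → (∀ i, eval z (F i) = 0) →
      LinearIndependent ℂ fun (i : γ) (l : Fin (M + 2)) => eval z (pderiv l (F i)))
    {y : Fin (M + 2) → K} (P : Place ℂ K) (hy : ∀ i, Ge P 1 (aeval y (F i)))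
    (hreg : ∀ l, P.Reg (y l)) {j : Fin (M + 2)} (hj : y j = 1) :
    ∃ I, mnr (grd F y) I ≠ 0 ∧ P.ord (mnr (grd F y) I) = 0 := by
  by_contra hcon
  push Not at hcon
  obtain ⟨N, hN⟩ := certG hs j
  have h3 : ∀ I, Ge P 1 (mnr (grd F y) I) := by
    intro I
    by_cases h0 : mnr (grd F y) I = 0
    · exact Or.inl h0
    · right
      have h2 := hcon I h0
      have h3 : P.Reg (mnr (grd F y) I) := by
        rw [← aeval_mpo]
        exact Pool.Agent.Y988.NT.reg_aeval hreg _
      have h4 := h3.resolve_left h0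
      omega
  have h1 : ∀ Q ∈ Ideal.span (Set.range F ∪ Set.range (mpo F)), Ge P 1 (aeval y Q) := by
    intro Q hQ
    refine Submodule.span_induction ?_ ?_ ?_ ?_ hQ
    · rintro _ (⟨i, rfl⟩ | ⟨I, rfl⟩)
      · exact hy i
      · rw [aeval_mpo]
        exact h3 I
    · exact Or.inl (map_zero _)
    · intro a b _ _ ha hb
      rw [map_add]
      exact ha.add hb
    · intro a b _ hb
      rw [smul_eq_mul, map_mul]
      have h6 := (show Ge P 0 (aeval y a) from Pool.Agent.Y988.NT.reg_aeval hreg a).mul hb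
      simpa using h6
  have h2 := h1 _ hN
  rw [map_pow, aeval_X, hj, one_pow] at h2
  rcases h2 with h4 | h4
  · exact one_ne_zero h4
  · rw [P.ord_one] at h4
    omega

end cert

section lin

variable {K : Type} [Field K] {γ κ ι J : Type} [Fintype γ] [Fintype κ] [Fintype ι] [Fintype J]
  [DecidableEq γ] [DecidableEq κ] [DecidableEq ι] [DecidableEq J]

/-- The columns of `G` and `H` can be completed by standard columns to a matrix with determinant
plus or minus the given minor. -/
theorem exists_completion (e : γ ⊕ κ ≃ ι) (G : ι → γ → K) (H : ι → J → K) (I : γ ⊕ J → ι)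
    (hI : mnr (fun l => Sum.elim (G l) (H l)) I ≠ 0) :
    ∃ (T : Type) (_ : Fintype T) (_ : DecidableEq T) (τ : T → ι) (e2 : κ ≃ J ⊕ T),
      (Matrix.of fun (s : γ ⊕ κ) (r : γ ⊕ κ) => Sum.elim (G (e s))
        (fun k => Sum.elim (H (e s)) (fun t => if e s = τ t then 1 else 0) (e2 k)) r).det =
        mnr (fun l => Sum.elim (G l) (H l)) I ∨
      (Matrix.of fun (s : γ ⊕ κ) (r : γ ⊕ κ) => Sum.elim (G (e s))
        (fun k => Sum.elim (H (e s)) (fun t => if e s = τ t then 1 else 0) (e2 k)) r).det =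
        - mnr (fun l => Sum.elim (G l) (H l)) I := by
  classical
  have hinj : Function.Injective I := by
    intro a b hab
    by_contra hne
    apply hI
    unfold mnr
    refine Matrix.det_zero_of_row_eq hne ?_
    funext r
    simp only [Matrix.of_apply, hab]
  let T : Type := ((Set.range I)ᶜ : Set ι)
  let E : (γ ⊕ J) ⊕ T ≃ ι :=
    ((Equiv.ofInjective I hinj).sumCongr (Equiv.refl T)).trans (Equiv.Set.sumCompl (Set.range I))
  have hE1 : ∀ a, E (Sum.inl a) = I a := fun a => rfl
  have hE2 : ∀ t : T, E (Sum.inr t) = t.1 := fun t => rfl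
  have hcard : Fintype.card κ = Fintype.card (J ⊕ T) := by
    have h1 := Fintype.card_congr e
    have h2 := Fintype.card_congr E
    simp only [Fintype.card_sum] at h1 h2 ⊢
    omega
  let e2 : κ ≃ J ⊕ T := Fintype.equivOfCardEq hcard
  refine ⟨T, inferInstance, inferInstance, fun t => t.1, e2, ?_⟩
  let E3 : γ ⊕ κ ≃ (γ ⊕ J) ⊕ T :=
    ((Equiv.refl γ).sumCongr e2).trans (Equiv.sumAssoc γ J T).symm
  let Ψ : ι → (γ ⊕ J) ⊕ T → K := fun l =>
    Sum.elim (Sum.elim (G l) (H l)) (fun t : T => if l = t.1 then 1 else 0)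
  have hΦ : (Matrix.of fun (s : γ ⊕ κ) (r : γ ⊕ κ) => Sum.elim (G (e s))
        (fun k => Sum.elim (H (e s)) (fun t : T => if e s = t.1 then 1 else 0) (e2 k)) r) =
      Matrix.submatrix (Matrix.of fun (s : (γ ⊕ J) ⊕ T) r => Ψ (e (E3.symm s)) r) E3 E3 := by
    ext s r
    simp only [Matrix.submatrix_apply, Matrix.of_apply, Equiv.symm_apply_apply]
    rcases r with g | k
    · rfl
    · change Sum.elim (H (e s)) _ (e2 k) = Ψ (e s) ((Equiv.sumAssoc γ J T).symm (Sum.inr (e2 k)))
      rcases e2 k with j | t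
      · rfl
      · rfl
  have hΨ : (Matrix.of fun (s : (γ ⊕ J) ⊕ T) r => Ψ (E s) r).det =
      mnr (fun l => Sum.elim (G l) (H l)) I := by
    have h1 : (Matrix.of fun (s : (γ ⊕ J) ⊕ T) r => Ψ (E s) r) =
        Matrix.fromBlocks (Matrix.of fun k i => Sum.elim (G (I k)) (H (I k)) i) 0
          (Matrix.of fun (t : T) i => Sum.elim (G t.1) (H t.1) i) 1 := by
      ext s r
      rcases s with a | t <;> rcases r with b | u
      · rfl
      · simp only [Matrix.of_apply, Matrix.fromBlocks_apply₁₂, Matrix.zero_apply]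
        change (if E (Sum.inl a) = u.1 then (1 : K) else 0) = 0
        rw [hE1, if_neg]
        intro h
        exact u.2 ⟨a, h⟩
      · rfl
      · simp only [Matrix.of_apply, Matrix.fromBlocks_apply₂₂, Matrix.one_apply]
        change (if E (Sum.inr t) = u.1 then (1 : K) else 0) = _
        rw [hE2]
        by_cases h : t = u
        · rw [if_pos h, if_pos (by rw [h])]
        · rw [if_neg h, if_neg fun h' => h (Subtype.ext h')]
    rw [h1, Matrix.det_fromBlocks_zero₁₂, Matrix.det_one, mul_one]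
    rfl
  rw [hΦ, Matrix.det_submatrix_equiv_self]
  let π : Equiv.Perm ((γ ⊕ J) ⊕ T) := (E3.symm.trans e).trans E.symm
  have h2 : (Matrix.of fun (s : (γ ⊕ J) ⊕ T) r => Ψ (e (E3.symm s)) r) =
      Matrix.submatrix (Matrix.of fun (s : (γ ⊕ J) ⊕ T) r => Ψ (E s) r) π id := by
    ext s r
    simp only [Matrix.submatrix_apply, Matrix.of_apply, id]
    change Ψ (e (E3.symm s)) r = Ψ (E (E.symm (e (E3.symm s)))) r
    rw [Equiv.apply_symm_apply]
  rw [h2, Matrix.det_permute, hΨ]
  rcases Int.units_eq_one_or (Equiv.Perm.sign π) with h3 | h3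
  · left
    rw [h3]
    simp
  · right
    rw [h3]
    simp

end lin

section geo

variable {M n c s : ℕ} {K : Type} [Field K] [Algebra ℂ K]

/-- The local computation. -/
theorem log_local (e : Fin c ⊕ (Unit ⊕ Fin n) ≃ Fin (M + 2))
    {F : Fin c → MvPolynomial (Fin (M + 2)) ℂ} {d : Fin c → ℕ}
    {h : Fin s → MvPolynomial (Fin (M + 2)) ℂ} {b : Fin s → ℕ}
    (hF : ∀ i, (F i).IsHomogeneous (d i)) (hh : ∀ j, (h j).IsHomogeneous (b j))
    (hs : ∀ z : Fin (M + 2) → ℂ, z ≠ 0 → (∀ i, eval z (F i) = 0) →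
      LinearIndependent ℂ (Sum.elim (fun (i : Fin c) (l : Fin (M + 2)) => eval z (pderiv l (F i)))
        fun (j : {j // eval z (h j) = 0}) (l : Fin (M + 2)) => eval z (pderiv l (h j))))
    {y : Fin (M + 2) → K} (hFy : ∀ i, aeval y (F i) = 0) (hhy : ∀ j, aeval y (h j) ≠ 0)
    (P : Place ℂ K) (hreg : ∀ l, P.Reg (y l)) {j₀ : Fin (M + 2)} (hj₀ : y j₀ = 1)
    {I : Fin c → Fin (M + 2)} (hI : mnr (gr F y) I ≠ 0) {D : Fin n → Derivation ℂ K K}
    (hD : ∀ i, DerReg P (D i))
    (hD' : ∀ j, 0 < P.ord (aeval y (h j)) → ∀ i, P.Reg (D i (aeval y (h j)) / aeval y (h j))) :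
    P.Reg (om e F y I D / ∏ j, aeval y (h j)) := by
  classical
  obtain ⟨J, hJdef⟩ : ∃ J : Fin s → Prop, ∀ j, J j ↔ 0 < P.ord (aeval y (h j)) :=
    ⟨fun j => 0 < P.ord (aeval y (h j)), fun j => Iff.rfl⟩
  -- the unit minor
  let F' : Fin c ⊕ {j // J j} → MvPolynomial (Fin (M + 2)) ℂ := Sum.elim F fun j => h j.1
  have hs' : ∀ z : Fin (M + 2) → ℂ, z ≠ 0 → (∀ i, eval z (F' i) = 0) →
      LinearIndependent ℂ fun (i : Fin c ⊕ {j // J j}) (l : Fin (M + 2)) =>
        eval z (pderiv l (F' i)) := by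
    intro z hz hz'
    have h1 := hs z hz fun i => hz' (Sum.inl i)
    let f : Fin c ⊕ {j // J j} → Fin c ⊕ {j // eval z (h j) = 0} :=
      Sum.map id fun j => ⟨j.1, hz' (Sum.inr j)⟩
    have hf : Function.Injective f := by
      refine Function.Injective.sumMap Function.injective_id fun a b hab => ?_
      have h2 := congrArg Subtype.val hab
      exact Subtype.ext h2
    have he : (fun (i : Fin c ⊕ {j // J j}) (l : Fin (M + 2)) => eval z (pderiv l (F' i))) =
        (Sum.elim (fun (i : Fin c) (l : Fin (M + 2)) => eval z (pderiv l (F i)))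
        fun (j : {j // eval z (h j) = 0}) (l : Fin (M + 2)) => eval z (pderiv l (h j))) ∘ f := by
      funext i
      rcases i with i | j
      · rfl
      · rfl
    rw [he]
    exact h1.comp f hf
  obtain ⟨I', hI1, hI2⟩ := minor_unitG hs' P (y := y) (fun i => by
    rcases i with i | j
    · left
      exact hFy i
    · right
      have := (hJdef j.1).1 j.2
      exact this) hreg hj₀
  have hgrd : grd F' y = fun l => Sum.elim (gr F y l)
      (fun j : {j // J j} => aeval y (pderiv l (h j.1))) := by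
    funext l i
    rcases i with i | j
    · rfl
    · rfl
  rw [hgrd] at hI1 hI2
  obtain ⟨T, _, _, τ, e2, hdet⟩ := exists_completion e (gr F y)
    (fun l (j : {j // J j}) => aeval y (pderiv l (h j.1))) I' hI1
  obtain ⟨Φ, hΦ⟩ : ∃ Φ : K, Φ = (Matrix.of fun (s : Fin c ⊕ (Unit ⊕ Fin n))
      (r : Fin c ⊕ (Unit ⊕ Fin n)) => Sum.elim (gr F y (e s))
        (fun k => Sum.elim (fun (j : {j // J j}) => aeval y (pderiv (e s) (h j.1)))
          (fun t => if e s = τ t then 1 else 0) (e2 k)) r).det := ⟨_, rfl⟩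
  have hΦ0 : Φ ≠ 0 ∧ P.ord Φ = 0 := by
    rw [← hΦ] at hdet
    rcases hdet with h1 | h1
    · rw [h1]
      exact ⟨hI1, hI2⟩
    · rw [h1]
      exact ⟨neg_ne_zero.2 hI1, by rw [P.ord_neg, hI2]⟩
  -- the key identity
  have hkey := key_one e (gr F y)
    (fun l k => Sum.elim (fun (j : {j // J j}) => aeval y (pderiv l (h j.1)))
      (fun t => if l = τ t then 1 else 0) (e2 k)) (sr I) (RR y D) (RR_G hF hFy D)
  rw [pr_sr] at hkey
  -- the second factor
  let W : Matrix (Unit ⊕ Fin n) (Unit ⊕ Fin n) K := Matrix.of fun k k' =>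
    Sum.elim (fun (j : {j // J j}) => Sum.elim (fun _ : Unit => ((b j.1 : ℕ) : K))
      (fun i => D i (aeval y (h j.1)) / aeval y (h j.1)) k) (fun t => RR y D k (τ t)) (e2 k')
  let v : Unit ⊕ Fin n → K := fun k' =>
    Sum.elim (fun (j : {j // J j}) => aeval y (h j.1)) (fun _ => 1) (e2 k')
  have hW : (Matrix.of fun k k' : Unit ⊕ Fin n => ∑ l, RR y D k l *
      Sum.elim (fun (j : {j // J j}) => aeval y (pderiv l (h j.1)))
        (fun t => if l = τ t then 1 else 0) (e2 k')) = Matrix.of fun k k' => v k' * W k k' := by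
    ext k k'
    simp only [Matrix.of_apply, v, W]
    rcases e2 k' with j | t
    · simp only [Sum.elim_inl]
      rcases k with u | i
      · have h1 := congrArg (aeval y) (hh j.1).sum_X_mul_pderiv
        rw [map_sum, map_nsmul, nsmul_eq_mul] at h1
        simp only [Sum.elim_inl]
        rw [mul_comm (aeval y (h j.1)), ← h1]
        refine Finset.sum_congr rfl fun l _ => ?_
        rw [map_mul, aeval_X]
        rfl
      · have h1 := Pool.Agent.Y988.NT.der_aeval (D i) y (h j.1)
        simp only [Sum.elim_inr]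
        rw [mul_div_cancel₀ _ (hhy j.1), h1]
        exact Finset.sum_congr rfl fun l _ => mul_comm _ _
    · simp only [Sum.elim_inr, one_mul, mul_ite, mul_one, mul_zero]
      rw [Finset.sum_ite_eq' Finset.univ (τ t), if_pos (Finset.mem_univ _)]
  rw [hW, Matrix.det_mul_row] at hkey
  have hv : ∏ k', v k' = ∏ j : {j // J j}, aeval y (h j.1) := by
    simp only [v]
    rw [e2.prod_comp (fun r => Sum.elim (fun (j : {j // J j}) => aeval y (h j.1))
      (fun _ => (1 : K)) r), Fintype.prod_sum_type]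
    simp
  rw [hv] at hkey
  have hWreg : P.Reg W.det := by
    refine Pool.Agent.Y988.NT.reg_det P _ fun k k' => ?_
    simp only [W, Matrix.of_apply]
    rcases e2 k' with j | t
    · simp only [Sum.elim_inl]
      rcases k with u | i
      · simp only [Sum.elim_inl]
        have h1 : ((b j.1 : ℕ) : K) = aeval y (C ((b j.1 : ℕ) : ℂ) : MvPolynomial _ ℂ) := by
          rw [aeval_C, map_natCast]
        rw [h1]
        exact Pool.Agent.Y988.NT.reg_aeval hreg _
      · simp only [Sum.elim_inr]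
        exact hD' j.1 ((hJdef j.1).1 j.2) i
    · simp only [Sum.elim_inr]
      rcases k with u | i
      · exact hreg (τ t)
      · exact hD i _ (hreg (τ t))
  have hprod := Fintype.prod_subtype_mul_prod_subtype J fun j => aeval y (h j)
  have hp1 : ∏ j : {j // J j}, aeval y (h j.1) ≠ 0 := Finset.prod_ne_zero_iff.2 fun j _ => hhy j.1
  have hp2 : ∏ j : {j // ¬ J j}, aeval y (h j.1) ≠ 0 :=
    Finset.prod_ne_zero_iff.2 fun j _ => hhy j.1
  have hfin : om e F y I D / ∏ j, aeval y (h j) =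
      W.det * (Φ⁻¹ * ∏ j : {j // ¬ J j}, (aeval y (h j.1))⁻¹) := by
    unfold om
    rw [← hprod, Finset.prod_inv_distrib]
    have h3 : (mm e (sr I) (RR y D)).det * Φ =
        mnr (gr F y) I * ((∏ j : {j // J j}, aeval y (h j.1)) * W.det) := by
      rw [hΦ]
      exact hkey
    have hΦ1 := hΦ0.1
    field_simp
    linear_combination h3
  rw [hfin]
  refine P.reg_mul hWreg (P.reg_mul ?_ ?_)
  · right
    rw [P.ord_inv, hΦ0.2]
    simp
  · have h4 : ∀ t : Finset {j // ¬ J j}, P.Reg (∏ j ∈ t, (aeval y (h j.1))⁻¹) := by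
      intro t
      induction t using Finset.induction_on with
      | empty =>
        rw [Finset.prod_empty]
        exact P.reg_one
      | insert a t ha ih =>
        rw [Finset.prod_insert ha]
        refine P.reg_mul ?_ ih
        right
        rw [P.ord_inv]
        have h5 : ¬ 0 < P.ord (aeval y (h a.1)) := fun h5 => a.2 ((hJdef a.1).2 h5)
        omega
    exact h4 _

/-- The place `Q` is in the boundary: its centre in the projective space is on one of the
hypersurfaces `h j = 0` of degree `b j`, that is, one of the functions `h j (x) / x l ^ (b j)`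
vanishes at `Q`. -/
def Boundary (h : Fin s → MvPolynomial (Fin (M + 2)) ℂ) (b : Fin s → ℕ) (x : Fin (M + 2) → K)
    (Q : Place ℂ K) : Prop :=
  ∃ j l, x l ≠ 0 ∧ (b j : ℤ) * Q.ord (x l) < Q.ord (aeval x (h j))

/-- **Logarithmic canonical forms.** -/
theorem log_forms {m : ℕ} {F : Fin c → MvPolynomial (Fin (M + 2)) ℂ} {d : Fin c → ℕ}
    {h : Fin s → MvPolynomial (Fin (M + 2)) ℂ} {b : Fin s → ℕ} {x : Fin (M + 2) → K}
    (hCI : SmoothCI F d x) (hh : ∀ j, (h j).IsHomogeneous (b j))
    (hs : ∀ z : Fin (M + 2) → ℂ, z ≠ 0 → (∀ i, eval z (F i) = 0) →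
      LinearIndependent ℂ (Sum.elim (fun (i : Fin c) (l : Fin (M + 2)) => eval z (pderiv l (F i)))
        fun (j : {j // eval z (h j) = 0}) (l : Fin (M + 2)) => eval z (pderiv l (h j))))
    (hhx : ∀ j, aeval x (h j) ≠ 0) (htr : Algebra.trdeg ℂ K = n) (hnc : n + c = M + 1)
    (hm : m + M + 2 = ∑ i, d i + ∑ j, b j) :
    ∃ ω₁ : (Fin n → Derivation ℂ K K) → K, IsPluri 1 ω₁ ∧ (∃ D, ω₁ D ≠ 0) ∧
      ∀ P : MvPolynomial (Fin (M + 2)) ℂ, P.IsHomogeneous m →
        LogSec ℂ K n 1 (Boundary h b x) (fun D => aeval x P * ω₁ D) := by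
  classical
  have hcard : Fintype.card (Fin c ⊕ (Unit ⊕ Fin n)) = Fintype.card (Fin (M + 2)) := by
    simp
    omega
  let e : Fin c ⊕ (Unit ⊕ Fin n) ≃ Fin (M + 2) := Fintype.equivOfCardEq hcard
  have hx : ∀ i, aeval x (F i) = 0 := fun i =>
    (hCI.generic (d i) (F i) (hCI.hom i)).2 (Ideal.le_radical (Ideal.subset_span ⟨i, rfl⟩))
  have hx0 : x 0 ≠ 0 := by
    rw [hCI.one]
    exact one_ne_zero
  obtain ⟨I₀, hI₀⟩ := minor_ne hCI.smooth hx hx0
  obtain ⟨z, D, hz, hD⟩ := Pool.Agent.Y944.NT.exists_crd htr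
  have hprod : ∏ j, aeval x (h j) ≠ 0 := Finset.prod_ne_zero_iff.2 fun j _ => hhx j
  -- the local computation at a place
  have key : ∀ (A : MvPolynomial (Fin (M + 2)) ℂ), A.IsHomogeneous m → ∀ (P : Place ℂ K)
      (D : Fin n → Derivation ℂ K K), (∀ i, DerReg P (D i)) →
      ((∀ i, DerLog P (D i)) ∨ ¬ Boundary h b x P) →
      P.Reg (aeval x A * ((∏ j, aeval x (h j))⁻¹ * om e F x I₀ D)) := by
    intro A hA P D hDr hDl
    obtain ⟨j, hj, hmin⟩ := Finset.exists_min_image (Finset.univ.filter fun l => x l ≠ 0)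
      (fun l => P.ord (x l)) ⟨0, by simp [hx0]⟩
    have hj0 : x j ≠ 0 := (Finset.mem_filter.1 hj).2
    obtain ⟨μ, hμ⟩ : ∃ μ : K, μ = x j := ⟨_, rfl⟩
    have hμ0 : μ ≠ 0 := by rw [hμ]; exact hj0
    obtain ⟨y, hy⟩ : ∃ y : Fin (M + 2) → K, y = fun l => μ⁻¹ * x l := ⟨_, rfl⟩
    have hxy : x = fun l => μ * y l := by
      funext l
      rw [hy, mul_inv_cancel_left₀ hμ0]
    have hy1 : y j = 1 := by
      rw [hy]
      show μ⁻¹ * x j = 1
      rw [← hμ, inv_mul_cancel₀ hμ0]
    have hreg : ∀ l, P.Reg (y l) := by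
      intro l
      rw [hy]
      change P.Reg (μ⁻¹ * x l)
      by_cases h0 : x l = 0
      · left
        rw [h0, mul_zero]
      · right
        rw [P.ord_mul (inv_ne_zero hμ0) h0, P.ord_inv, hμ]
        have h1 := hmin l (by simp [h0])
        omega
    have hFy : ∀ i, aeval y (F i) = 0 := by
      intro i
      rw [hy, Pool.Agent.Y988.NT.aeval_smul_form (hCI.hom i), hx, mul_zero]
    have hhxy : ∀ i, aeval x (h i) = μ ^ b i * aeval y (h i) := by
      intro i
      have h1 := Pool.Agent.Y988.NT.aeval_smul_form (hh i) μ y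
      rw [← hxy] at h1
      exact h1
    have hhy : ∀ i, aeval y (h i) ≠ 0 := by
      intro i h0
      apply hhx i
      rw [hhxy, h0, mul_zero]
    obtain ⟨I, hI1, hI2⟩ := minor_unit hCI.smooth hFy P hreg hy1
    have hsc := mnr_scale hCI.hom y μ I
    rw [← hxy] at hsc
    have hI : mnr (gr F x) I ≠ 0 := by
      rw [hsc]
      exact mul_ne_zero (pow_ne_zero _ hμ0) hI1
    have hd : ∑ i, (d i - 1) + ∑ j, b j = m + (n + 1) := by
      have h1 : ∑ i, d i = ∑ i, (d i - 1) + c := by
        have h2 : ∑ i, d i = ∑ i, ((d i - 1) + 1) :=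
          Finset.sum_congr rfl fun i _ => by
            have := deg_pos hCI.hom hI i
            omega
        rw [h2, Finset.sum_add_distrib]
        simp
      omega
    have hpr : ∏ j, aeval x (h j) = μ ^ (∑ j, b j) * ∏ j, aeval y (h j) := by
      rw [← Finset.prod_pow_eq_pow_sum, ← Finset.prod_mul_distrib]
      exact Finset.prod_congr rfl fun i _ => hhxy i
    have hpy : ∏ j, aeval y (h j) ≠ 0 := Finset.prod_ne_zero_iff.2 fun j _ => hhy j
    have key1 : aeval x A * ((∏ j, aeval x (h j))⁻¹ * om e F x I₀ D) =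
        aeval y A * (om e F y I D / ∏ j, aeval y (h j)) := by
      rw [om_eq e hCI.hom hx hI₀ hI D]
      unfold om
      have h2 := mm_scale e (sr I) y D μ
      rw [← hxy] at h2
      have h3 := Pool.Agent.Y988.NT.aeval_smul_form hA μ y
      rw [← hxy] at h3
      rw [h3, h2, hsc, hpr]
      have h4 : μ ^ m * μ ^ (n + 1) = μ ^ (∑ i, (d i - 1)) * μ ^ (∑ j, b j) := by
        rw [← pow_add, ← pow_add, hd]
      field_simp
      linear_combination (aeval y A * (mm e (sr I) (RR y D)).det) * h4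
    rw [key1]
    refine P.reg_mul (Pool.Agent.Y988.NT.reg_aeval hreg A)
      (log_local e hCI.hom hh hs hFy hhy P hreg hy1 hI1 hDr fun i hi k => ?_)
    rcases hDl with hl | hB
    · exact hl k _
    · exfalso
      refine hB ⟨i, j, hj0, ?_⟩
      rw [hhxy, P.ord_mul (pow_ne_zero _ hμ0) (hhy i), P.ord_pow, ← hμ]
      omega
  refine ⟨fun D => (∏ j, aeval x (h j))⁻¹ * om e F x I₀ D, om_pluri e F x I₀ _,
    ⟨D, mul_ne_zero (inv_ne_zero hprod) (om_ne e hCI.hom hx hCI.one hCI.gen hI₀ hD)⟩,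
    fun P hP => ⟨?_, ?_, ?_⟩⟩
  · have h1 := om_pluri e F x I₀ (n := n) (aeval x P * (∏ j, aeval x (h j))⁻¹)
    refine cast (congrArg _ ?_) h1
    funext D
    ring
  · intro Q _ D hD
    exact key P hP Q D (fun i => Pool.Agent.TH466.QG.derReg_of_log (hD i)) (Or.inl hD)
  · intro Q _ hB D hD
    exact key P hP Q D hD (Or.inr hB)

end geo

end Pool.Agent.Run7.h260.LQ
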