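import Pool.Agent.Run7.h260.LQ.Tow
import Pool.Agent.Run7.h260.LQ.Snc
import Pool.Agent.N162.GQ.Factor

/-!
# The logarithmic canonical forms of pairs of low degree separate many generic points
-/

set_option autoImplicit false
set_option linter.unusedSectionVars false
set_option linter.overlappingInstances false

open FF MvPolynomial
open Pool.Agent.W602.GT
open Pool.Agent.Y184.NT (trForm)
open Pool.Agent.N162.GP (CutBy Adj)
open Pool.Agent.N145.SX (SepX HX form_coord)

namespace Pool.Agent.Run7.h260.LQ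

/-- The logarithmic canonical forms separate less than `(N + 1) (m + 2 - N)` generic points. -/
theorem sepX_pair {M n m m' D N : ℕ} {E : Type} [Field E] [Algebra ℂ E] {BE : Place ℂ E → Prop}
    {x : Fin (M + 2) → E} (h : LowDegreePair n m m' D BE x) (hM : 1 ≤ M) (hm : 7 * N + 4 ≤ m)
    (hN : (M + 1) * N < m + M + 2) (hD : D + N ≤ m + 2) (hm' : N ≤ m' + 1) {z : Fin n → E}
    {e : Fin n → Derivation ℂ E E} (hz : IsTranscendenceBasis ℂ z)
    (he : ∀ i j, e i (z j) = if i = j then 1 else 0) :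
    SepX z BE ((N + 1) * (m + 2 - N)) := by
  classical
  intro Ω _ _ _ A hA c hc σ₀ hσ₀
  by_contra hne
  obtain ⟨ω₀, hω⟩ := h.forms
  obtain ⟨ω₁, hpl, hne₁, hsec⟩ := h.logForms
  have h0 : ω₁ e ≠ 0 := by
    intro h0
    obtain ⟨D', hD'⟩ := hne₁
    apply hD'
    have h1 := form_coord hz he hpl
    rw [← h1, h0]
    simp [trForm]
  refine linx M n m m' N D E Ω x ω₀ hM hm hN hD hm' h.one h.gen h.dim h.cut hω
    (A.filter fun σ => c σ ≠ 0) (fun σ => c σ * σ (ω₁ e))
    ⟨σ₀, Finset.mem_filter.2 ⟨hσ₀, hne⟩⟩ (fun σ hσ => ?_)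
    (lt_of_le_of_lt (Finset.card_filter_le _ _) hA) fun P hP => ?_
  · exact mul_ne_zero (Finset.mem_filter.1 hσ).2 ((map_ne_zero_iff σ σ.toRingHom.injective).2 h0)
  · have h1 := hsec P hP
    have h2 := form_coord hz he h1.1
    have h3 := hc (aeval x P * ω₁ e) fun Q hQ => by
      rw [h2]
      exact ⟨h1.2.1 Q hQ, h1.2.2 Q hQ⟩
    rw [Finset.sum_filter]
    refine Eq.trans (Finset.sum_congr rfl fun σ _ => ?_) h3
    rw [map_mul]
    split_ifs with h4
    · ring
    · push Not at h4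
      rw [h4]
      ring

/-- Smooth complete intersections with a divisor with normal crossings. -/
theorem pair_of_snc {M n c s m m' D : ℕ} {E : Type} [Field E] [Algebra ℂ E]
    {F : Fin c → MvPolynomial (Fin (M + 2)) ℂ} {d : Fin c → ℕ}
    {h : Fin s → MvPolynomial (Fin (M + 2)) ℂ} {b : Fin s → ℕ} {x : Fin (M + 2) → E}
    (hCI : Pool.Agent.N162.GP.SmoothCI F d x) (hh : ∀ j, (h j).IsHomogeneous (b j))
    (hs : ∀ z : Fin (M + 2) → ℂ, z ≠ 0 → (∀ i, eval z (F i) = 0) →
      LinearIndependent ℂ (Sum.elim (fun (i : Fin c) (l : Fin (M + 2)) => eval z (pderiv l (F i)))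
        fun (j : {j // eval z (h j) = 0}) (l : Fin (M + 2)) => eval z (pderiv l (h j))))
    (hhx : ∀ j, aeval x (h j) ≠ 0) (hn : 1 ≤ n) (htr : Algebra.trdeg ℂ E = n) (hnc : n + c = M + 1)
    (hm' : m' + M + 2 = ∑ i, d i) (hm : m = m' + ∑ j, b j) (hD : ∀ i, d i ≤ D) (hD1 : 1 ≤ D) :
    LowDegreePair n m m' D (Boundary h b x) x where
  one := hCI.one
  gen := hCI.gen
  dim := htr
  cut := Pool.Agent.N162.GP.fCIC M c D E F d x hCI hD hD1
  forms := Pool.Agent.N162.GP.fCIA M n c m' E F d x hCI hn htr hnc hm'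
  logForms := log_forms hCI hh hs hhx htr hnc (by omega)

end Pool.Agent.Run7.h260.LQ
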