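import Pool.Agent.R882.LTr
import Pool.Agent.N619.GP.TRF
import Pool.Agent.N487.GP.GTY

/-!
# Pull-backs and traces of logarithmic canonical forms in correspondences
-/

set_option autoImplicit false
set_option linter.unusedSectionVars false
set_option linter.overlappingInstances false

open FF Pool.Agent.W603.LV Pool.Agent.Y184.NT IntermediateField
open Pool.Agent.W602.GT Pool.Agent.Y172
open Pool.Agent.R882.LT (SecAt)

namespace Pool.Agent.Run7.h260.LQ

section

variable {K K' : Type} [Field K] [Field K'] [Algebra ℂ K] [Algebra ℂ K'] [Algebra K K']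
  [IsScalarTower ℂ K K'] [FiniteDimensional K K'] [Algebra.EssFiniteType ℂ K] {n : ℕ}

/-- the pull-back of a form, in other coordinates -/
theorem pull_val (hn : Algebra.trdeg ℂ K = n) {y yP : Fin n → K}
    {e EP : Fin n → Derivation ℂ K K} (hy : IsTranscendenceBasis ℂ y)
    (he : ∀ i j, e i (y j) = if i = j then 1 else 0) (hyP : IsTranscendenceBasis ℂ yP)
    (hEP : ∀ i j, EP i (yP j) = if i = j then 1 else 0)
    {ω : (Fin n → Derivation ℂ K K) → K} (hω : IsPluri 1 ω) (G : Fin n → Derivation ℂ K' K') :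
    trForm (fun j => algebraMap K K' (y j)) (algebraMap K K' (ω e)) G =
      (Matrix.of fun i j => G i (algebraMap K K' (yP j))).det ^ 1 * algebraMap K K' (ω EP) := by
  choose EP' hEP' using fun i => exists_lift (L := K') hn (EP i)
  have h1 := pluri_coord (hyP.algebraMap_comp (A := K')) (lift_dual hEP hEP')
    (trForm_pluri (fun j => algebraMap K K' (y j)) (algebraMap K K' (ω e))) G
  rw [h1]
  have h2 : trForm (fun j => algebraMap K K' (y j)) (algebraMap K K' (ω e)) EP' =
      algebraMap K K' (ω EP) := by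
    rw [pluri_coord hy he hω EP, pow_one, map_mul, RingHom.map_det]
    unfold trForm
    congr 2
    ext i j
    rw [RingHom.mapMatrix_apply, Matrix.map_apply, Matrix.of_apply, Matrix.of_apply, hEP']
  rw [h2]
  rfl

/-- pull-backs of logarithmic forms are logarithmic -/
theorem pull_secAt (hn : Algebra.trdeg ℂ K = n) {y : Fin n → K} {e : Fin n → Derivation ℂ K K}
    (hy : IsTranscendenceBasis ℂ y) (he : ∀ i j, e i (y j) = if i = j then 1 else 0)
    {ω : (Fin n → Derivation ℂ K K) → K} (hω : IsPluri 1 ω) {P : Place ℂ K} {Q : Place ℂ K'}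
    {r : ℕ} (h : Over Q P r) (hP : Divisorial n P) {BK : Place ℂ K → Prop}
    {BK' : Place ℂ K' → Prop} (hB : BK P → BK' Q) (hs : SecAt BK P ω) :
    SecAt BK' Q (trForm (fun j => algebraMap K K' (y j)) (algebraMap K K' (ω e))) := by
  obtain ⟨yP, EP, i0, hl⟩ := exists_loc hn hP
  have hval := fun G => pull_val (K' := K') hn hy he hl.bas hl.dual hω G
  refine ⟨fun G hG => ?_, fun hBQ G hG => ?_⟩
  · rw [hval]
    have h1 : Ge P 0 (ω fun i => lc yP i0 i • EP i) := hs.1 _ hl.log
    have h2 := pull_log h hl hG hω h1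
    rw [mul_zero] at h2
    exact h2
  · rw [hval]
    have h1 : Ge P 0 (ω EP) := hs.2 (fun hb => hBQ (hB hb)) EP hl.pres
    have h2 := pull_reg (m := 1) h hl hG h1
    refine h2.mono ?_
    have := h.1
    push_cast
    omega

end

/-- **Traces of the pull-backs of logarithmic forms.** -/
theorem ltrf {n : ℕ} {L K K' : Type} [Field L] [Algebra ℂ L] [Algebra.EssFiniteType ℂ L]
    [Field K] [Algebra ℂ K] [Algebra.EssFiniteType ℂ K] [Field K'] [Algebra ℂ K'] [Algebra K K']
    [IsScalarTower ℂ K K'] [FiniteDimensional K K'] [Algebra L K'] [IsScalarTower ℂ L K']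
    [FiniteDimensional L K'] (hn : Algebra.trdeg ℂ K = n) {BK : Place ℂ K → Prop}
    {BL : Place ℂ L → Prop}
    (hB : ∀ (P : Place ℂ L) (Q : Place ℂ K') (R : Place ℂ K) (e e' : ℕ), Over Q P e →
      Over Q R e' → BK R → BL P)
    {ω₀ : (Fin n → Derivation ℂ K K) → K} (hω₀ : IsPluri 1 ω₀) (hne : ∃ D, ω₀ D ≠ 0) :
    ∃ (u : K') (ω : (Fin n → Derivation ℂ L L) → L), u ≠ 0 ∧
      u ∈ IntermediateField.adjoin L (Set.range (algebraMap K K')) ∧ IsPluri 1 ω ∧
      (∃ D, ω D ≠ 0) ∧ ∀ b : K, LogSec ℂ K n 1 BK (fun D => b * ω₀ D) →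
        LogSec ℂ L n 1 BL (fun D => Algebra.trace L K' (algebraMap K K' b * u) * ω D) := by
  have hK' : Algebra.trdeg ℂ K' = n := trdeg_up (K := K) hn
  have hL : Algebra.trdeg ℂ L = n := Pool.Agent.Y184.NT.trdeg_below (K := K') hK'
  have hess : Algebra.EssFiniteType ℂ K' := Algebra.EssFiniteType.comp ℂ L K'
  obtain ⟨l, E0, hl, hE0⟩ := Pool.Agent.Y172.exists_crd (k := ℂ) (K := L) hL
  choose E' hE' using fun i : Fin n =>
    Pool.Agent.Y172.exists_lift (k := ℂ) (K := L) (L := K') hL (E0 i)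
  have hl2 : IsTranscendenceBasis ℂ (fun j => algebraMap L K' (l j)) := hl.algebraMap_comp
  have hE2 := fun i j => Pool.Agent.Y172.lift_dual (L := K') hE0 hE' i j
  obtain ⟨y, e, hy, he⟩ := Pool.Agent.Y172.exists_crd (k := ℂ) (K := K) hn
  have hy2 : IsTranscendenceBasis ℂ (fun j => algebraMap K K' (y j)) := hy.algebraMap_comp
  choose F hF using fun i : Fin n => exists_der _ hy2 fun j => if i = j then 1 else 0
  have hω0 : ω₀ e ≠ 0 := by
    intro h0
    obtain ⟨D, hD⟩ := hne
    apply hD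
    rw [Pool.Agent.Y172.pluri_coord hy he hω₀ D, h0, mul_zero]
  have hdet : (Matrix.of fun i j => E' i (algebraMap K K' (y j))).det ≠ 0 := by
    intro h0
    have h1 := Pool.Agent.Y172.pluri_coord hy2 hF
      (trForm_pluri (fun j => algebraMap L K' (l j)) 1) E'
    rw [h0, pow_one, zero_mul] at h1
    unfold trForm at h1
    have h2 : (Matrix.of fun i j => E' i (algebraMap L K' (l j)) :
        Matrix (Fin n) (Fin n) K') = 1 := by
      ext i j
      rw [Matrix.of_apply, hE2, Matrix.one_apply]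
    rw [h2, Matrix.det_one, one_mul] at h1
    exact one_ne_zero h1
  refine ⟨(Matrix.of fun i j => E' i (algebraMap K K' (y j))).det * algebraMap K K' (ω₀ e),
    trForm l 1, ?_, ?_, trForm_pluri l 1, ⟨E0, ?_⟩, ?_⟩
  · refine mul_ne_zero hdet ?_
    rwa [Ne, map_eq_zero]
  · refine mul_mem (Pool.Agent.N619.GP.det_mem _ _ fun i j => ?_) ?_
    · rw [Matrix.of_apply]
      exact Pool.Agent.N619.GP.lift_mem hL hl hE0 hE' _ i _
        (IntermediateField.subset_adjoin _ _ ⟨y j, rfl⟩)
    · exact IntermediateField.subset_adjoin _ _ ⟨ω₀ e, rfl⟩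
  · unfold trForm
    have h2 : (Matrix.of fun i j => E0 i (l j) : Matrix (Fin n) (Fin n) L) = 1 := by
      ext i j
      rw [Matrix.of_apply, hE0, Matrix.one_apply]
    rw [h2, Matrix.det_one, one_mul]
    exact one_ne_zero
  · intro b hb
    obtain ⟨W, hW⟩ : ∃ W : (Fin n → Derivation ℂ K' K') → K',
      W = trForm (fun j => algebraMap K K' (y j)) (algebraMap K K' (b * ω₀ e)) := ⟨_, rfl⟩
    have hWp : IsPluri 1 W := by
      rw [hW]
      exact trForm_pluri _ _
    have hWr : ∀ Q : Place ℂ K', Divisorial n Q →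
        SecAt (fun Q => ∃ (R : Place ℂ K) (r : ℕ), Over Q R r ∧ BK R) Q W := by
      intro Q hQ
      obtain ⟨R, r, hR⟩ := exists_below (k := ℂ) (K := K) Q
      have hRd : Divisorial n R := divisorial_down hR hQ
      rw [hW]
      exact pull_secAt hn hy he (ω := fun D => b * ω₀ D) hb.1 hR hRd (fun h => ⟨R, r, hR, h⟩)
        ⟨hb.2.1 R hRd, hb.2.2 R hRd⟩
    have hWE : W E' = algebraMap K K' b *
        ((Matrix.of fun i j => E' i (algebraMap K K' (y j))).det * algebraMap K K' (ω₀ e)) := by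
      rw [hW]
      unfold trForm
      rw [map_mul]
      ring
    have h1 : (fun D => Algebra.trace L K' (algebraMap K K' b *
        ((Matrix.of fun i j => E' i (algebraMap K K' (y j))).det * algebraMap K K' (ω₀ e))) *
          trForm l 1 D) = trForm l (Algebra.trace L K' (W E')) := by
      funext D
      rw [hWE]
      unfold trForm
      ring
    rw [h1]
    have h3 := fun P hP => Pool.Agent.R882.LT.trForm_sec (BL := BL) hL hl hE0 hE' W hWp
      (fun P Q e hQ hBQ => by
        obtain ⟨R, r, hR, hBR⟩ := hBQ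
        exact hB P Q R e r hQ hR hBR) hWr P hP
    exact ⟨trForm_pluri _ _, fun P hP => (h3 P hP).1, fun P hP => (h3 P hP).2⟩

/-- **Logarithmic general type from the ratios of the forms.** -/
theorem lgty {n : ℕ} {L : Type} [Field L] [Algebra ℂ L] {BL : Place ℂ L → Prop} {ι : Type}
    {T : ι → L} {i₀ : ι} {ω : (Fin n → Derivation ℂ L L) → L} (hn : Algebra.trdeg ℂ L = n)
    (hpl : IsPluri 1 ω) (hD : ∃ D, ω D ≠ 0) (hT0 : T i₀ ≠ 0)
    (hG : ∀ i, LogSec ℂ L n 1 BL (fun D => T i * ω D))
    (halg : Algebra.IsAlgebraic (IntermediateField.adjoin ℂ (Set.range fun i => T i / T i₀)) L) :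
    LogGeneralType ℂ L n BL := by
  obtain ⟨D, hD⟩ := hD
  obtain ⟨f, hf, hind⟩ := Pool.Agent.N487.GP.core hn _ halg
  choose s hs using hf
  refine ⟨hn, 1, one_pos, Fin.cons (fun D => T i₀ * ω D) (fun j D => T (s j) * ω D), ?_, ?_, ?_, D,
    ?_, ?_⟩
  · intro j
    refine Fin.cases ?_ (fun j => ?_) j
    · exact (hG i₀).1
    · exact (hG (s j)).1
  · intro P hP j
    refine Fin.cases ?_ (fun j => ?_) j
    · exact (hG i₀).2.1 P hP
    · exact (hG (s j)).2.1 P hP
  · intro P hP hB j
    refine Fin.cases ?_ (fun j => ?_) j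
    · exact (hG i₀).2.2 P hP hB
    · exact (hG (s j)).2.2 P hP hB
  · exact mul_ne_zero hT0 hD
  · have e : (fun i : Fin n => (Fin.cons (fun D => T i₀ * ω D) (fun j D => T (s j) * ω D) :
        Fin (n + 1) → (Fin n → Derivation ℂ L L) → L) i.succ D /
          (Fin.cons (fun D => T i₀ * ω D) (fun j D => T (s j) * ω D) :
        Fin (n + 1) → (Fin n → Derivation ℂ L L) → L) 0 D) = f := by
      funext i
      simp only [Fin.cons_succ, Fin.cons_zero]
      rw [← hs i]
      exact mul_div_mul_right _ _ hD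
    rw [e]
    exact hind

end Pool.Agent.Run7.h260.LQ
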