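import Pool.Agent.Run7.h260.LQ.Ind
import Pool.Agent.Run7.h260.LQ.Up

/-!
# Images of pairs over varieties which are cut out by equations of low degree

Variants of the theorems of `Pool/Agent/N162/GP/Final.lean` for logarithmic canonical forms.
-/

set_option autoImplicit false
set_option linter.unusedSectionVars false
set_option linter.overlappingInstances false

open FF Pool.Agent.W603.LV Pool.Agent.Y184.NT Pool.Agent.N162.BC IntermediateField MvPolynomial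
open Pool.Agent.W602.GT
open Pool.Agent.N162.HN (pt)
open Pool.Agent.N162.GP

namespace Pool.Agent.Run7.h260.LQ

section

variable {M n m m' N D : ℕ} {K : Type} [Field K] [Algebra ℂ K] {x : Fin (M + 2) → K}
  {ω₀ : (Fin n → Derivation ℂ K K) → K} (hM : 1 ≤ M) (hm : 7 * N + 4 ≤ m)
  (hN : (M + 1) * N < m + M + 2) (hD : D + N ≤ m + 2) (hm' : N ≤ m' + 1) (hx0 : x 0 = 1)
  (hgen : IntermediateField.adjoin ℂ (Set.range x) = ⊤) (hK : Algebra.trdeg ℂ K = n)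
  (hcut : CutBy D x) (hadj : Adj m' n x ω₀)

include hM hm hN hD hm' hx0 hgen hK hcut hadj

section

variable {L K' : Type} [Field L] [Algebra ℂ L] [Field K']
  [Algebra ℂ K'] [Algebra K K'] [IsScalarTower ℂ K K'] [Algebra L K']
  [IsScalarTower ℂ L K'] [FiniteDimensional L K']

/-- some trace is not zero -/
theorem trace_ne (hr : Module.finrank L K' < (N + 1) * (m + 2 - N)) {u : K'}
    (hu : u ≠ 0) (hu' : u ∈ IntermediateField.adjoin L (Set.range (algebraMap K K'))) :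
    ∃ P : MvPolynomial (Fin (M + 2)) ℂ, P.IsHomogeneous m ∧
      Algebra.trace L K' (algebraMap K K' (aeval x P) * u) ≠ 0 := by
  have hcL : CharZero L := charZero_of_injective_algebraMap (algebraMap ℂ L).injective
  by_contra hcon
  push Not at hcon
  obtain ⟨S, κ, hS, hSc, hκ, hsum⟩ := fTRS L K K' (AlgebraicClosure L) u hu hu'
    (IsScalarTower.toAlgHom ℂ L (AlgebraicClosure L))
  refine linx M n m m' N D K (AlgebraicClosure L) x ω₀ hM hm hN hD hm' hx0 hgen hK hcut hadj S κ hS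
    (fun ρ hρ => (hκ ρ hρ).1) (lt_of_le_of_lt hSc hr) fun P hP => ?_
  rw [← hsum, hcon P hP, map_zero]

/-- two fibres -/
theorem two (hr : 2 * Module.finrank L K' < (N + 1) * (m + 2 - N)) {u : K'}
    (hu : u ≠ 0) (hu' : u ∈ IntermediateField.adjoin L (Set.range (algebraMap K K')))
    {P₀ : MvPolynomial (Fin (M + 2)) ℂ}
    (hP₀ : Algebra.trace L K' (algebraMap K K' (aeval x P₀) * u) ≠ 0) {Ω : Type} [Field Ω]
    [Algebra ℂ Ω] [IsAlgClosed Ω] (σ τ : L →ₐ[ℂ] Ω)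
    (hστ : ∀ P : MvPolynomial (Fin (M + 2)) ℂ, P.IsHomogeneous m →
      σ (Algebra.trace L K' (algebraMap K K' (aeval x P) * u) /
        Algebra.trace L K' (algebraMap K K' (aeval x P₀) * u)) =
      τ (Algebra.trace L K' (algebraMap K K' (aeval x P) * u) /
        Algebra.trace L K' (algebraMap K K' (aeval x P₀) * u))) :
    ∃ σ' τ' : K' →ₐ[ℂ] Ω, (∀ a, σ' (algebraMap L K' a) = σ a) ∧
      (∀ a, τ' (algebraMap L K' a) = τ a) ∧
      ∀ b : K, σ' (algebraMap K K' b) = τ' (algebraMap K K' b) := by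
  classical
  have hcL : CharZero L := charZero_of_injective_algebraMap (algebraMap ℂ L).injective
  obtain ⟨S, κ, hS, hSc, hκ, hsum⟩ := fTRS L K K' Ω u hu hu' σ
  obtain ⟨S', κ', hS', hSc', hκ', hsum'⟩ := fTRS L K K' Ω u hu hu' τ
  by_contra hcon
  push Not at hcon
  obtain ⟨w, hw⟩ : ∃ w, w = Algebra.trace L K' (algebraMap K K' (aeval x P₀) * u) := ⟨_, rfl⟩
  rw [← hw] at hP₀ hστ
  have hσw : σ w ≠ 0 := (map_ne_zero σ).2 hP₀
  have hτw : τ w ≠ 0 := (map_ne_zero τ).2 hP₀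
  have hdisj : Disjoint S S' := by
    rw [Finset.disjoint_left]
    intro ρ hρ hρ'
    obtain ⟨-, σ', h1, h2⟩ := hκ ρ hρ
    obtain ⟨-, τ', h3, h4⟩ := hκ' ρ hρ'
    obtain ⟨b, hb⟩ := hcon σ' τ' h1 h3
    exact hb (by rw [h2, h4])
  obtain ⟨lam, hlam⟩ : ∃ lam : (K →ₐ[ℂ] Ω) → Ω, ∀ ρ, lam ρ =
      if ρ ∈ S then τ w * κ ρ else -(σ w * κ' ρ) := ⟨_, fun _ => rfl⟩
  have hlam1 : ∀ ρ ∈ S, lam ρ = τ w * κ ρ := fun ρ h => by rw [hlam, if_pos h]
  have hlam2 : ∀ ρ ∈ S', lam ρ = -(σ w * κ' ρ) := fun ρ h => by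
    rw [hlam, if_neg (Finset.disjoint_right.1 hdisj h)]
  refine linx M n m m' N D K Ω x ω₀ hM hm hN hD hm' hx0 hgen hK hcut hadj (S ∪ S') lam
    (hS.mono Finset.subset_union_left) (fun ρ hρ => ?_)
    (lt_of_le_of_lt ((Finset.card_union_le _ _).trans (by omega)) hr) fun P hP => ?_
  · rcases Finset.mem_union.1 hρ with h | h
    · rw [hlam1 ρ h]
      exact mul_ne_zero hτw (hκ ρ h).1
    · rw [hlam2 ρ h]
      exact neg_ne_zero.2 (mul_ne_zero hσw (hκ' ρ h).1)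
  · rw [Finset.sum_union hdisj]
    have h1 : ∑ ρ ∈ S, lam ρ * ρ (aeval x P) =
        τ w * σ (Algebra.trace L K' (algebraMap K K' (aeval x P) * u)) := by
      rw [hsum, Finset.mul_sum]
      exact Finset.sum_congr rfl fun ρ h => by rw [hlam1 ρ h, mul_assoc]
    have h2 : ∑ ρ ∈ S', lam ρ * ρ (aeval x P) =
        -(σ w * τ (Algebra.trace L K' (algebraMap K K' (aeval x P) * u))) := by
      rw [hsum', Finset.mul_sum, ← Finset.sum_neg_distrib]
      exact Finset.sum_congr rfl fun ρ h => by rw [hlam2 ρ h, neg_mul, mul_assoc]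
    have h3 := hστ P hP
    rw [map_div₀, map_div₀, div_eq_div_iff hσw hτw] at h3
    rw [h1, h2]
    linear_combination h3

end

variable {L K' : Type} [Field L] [Algebra ℂ L] [Algebra.EssFiniteType ℂ L] [Field K']
  [Algebra ℂ K'] [Algebra K K'] [IsScalarTower ℂ K K'] [FiniteDimensional K K'] [Algebra L K']
  [IsScalarTower ℂ L K'] [FiniteDimensional L K'] {BK : Place ℂ K → Prop} {BL : Place ℂ L → Prop}

/-- logarithmic canonical forms -/
theorem lpg (hB : ∀ (P : Place ℂ L) (Q : Place ℂ K') (R : Place ℂ K) (e e' : ℕ), Over Q P e →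
      Over Q R e' → BK R → BL P)
    {ω₁ : (Fin n → Derivation ℂ K K) → K} (hω₁ : IsPluri 1 ω₁) (hne₁ : ∃ D, ω₁ D ≠ 0)
    (hsec : ∀ P : MvPolynomial (Fin (M + 2)) ℂ, P.IsHomogeneous m →
      LogSec ℂ K n 1 BK (fun D => aeval x P * ω₁ D))
    (hr : Module.finrank L K' < (N + 1) * (m + 2 - N)) :
    ∃ ω : (Fin n → Derivation ℂ L L) → L, LogSec ℂ L n 1 BL ω ∧ ∃ D, ω D ≠ 0 := by
  haveI := ess_of_gen hgen
  obtain ⟨u, ω, hu, hu', hpl, ⟨D₀, hD₀⟩, hreg⟩ := ltrf (BL := BL) hK hB hω₁ hne₁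
  obtain ⟨P, hP, hne⟩ := trace_ne hM hm hN hD hm' hx0 hgen hK hcut hadj hr hu hu'
  exact ⟨_, hreg _ (hsec P hP), D₀, mul_ne_zero hne hD₀⟩

/-- logarithmic general type -/
theorem lgt (hB : ∀ (P : Place ℂ L) (Q : Place ℂ K') (R : Place ℂ K) (e e' : ℕ), Over Q P e →
      Over Q R e' → BK R → BL P)
    {ω₁ : (Fin n → Derivation ℂ K K) → K} (hω₁ : IsPluri 1 ω₁) (hne₁ : ∃ D, ω₁ D ≠ 0)
    (hsec : ∀ P : MvPolynomial (Fin (M + 2)) ℂ, P.IsHomogeneous m →
      LogSec ℂ K n 1 BK (fun D => aeval x P * ω₁ D))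
    (hr : 2 * Module.finrank L K' < (N + 1) * (m + 2 - N)) : LogGeneralType ℂ L n BL := by
  haveI := ess_of_gen hgen
  obtain ⟨u, ω, hu, hu', hpl, ⟨D₀, hD₀⟩, hreg⟩ := ltrf (BL := BL) hK hB hω₁ hne₁
  obtain ⟨P₀, hP₀, hne⟩ := trace_ne hM hm hN hD hm' hx0 hgen hK hcut hadj (by omega) hu hu'
  have hLK : Algebra.trdeg ℂ L = n := by
    rw [← hK, trdeg_alg ℂ L K', trdeg_alg ℂ K K']
  obtain ⟨T, hT⟩ : ∃ T : {P : MvPolynomial (Fin (M + 2)) ℂ // P.IsHomogeneous m} → L,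
      ∀ P, T P = Algebra.trace L K' (algebraMap K K' (aeval x P.1) * u) := ⟨_, fun _ => rfl⟩
  refine lgty (T := T) (i₀ := ⟨P₀, hP₀⟩) (ω := ω) hLK hpl ⟨D₀, hD₀⟩ (by rw [hT]; exact hne)
    (fun P => by rw [hT]; exact hreg _ (hsec P.1 P.2)) ?_
  by_contra halg
  obtain ⟨Ω, _, _, _, σ, τ, h1, h2⟩ := fGPR L _ n hLK halg
  obtain ⟨σ', τ', h3, h4, h5⟩ := two hM hm hN hD hm' hx0 hgen hK hcut hadj hr hu hu' hne σ τ
    fun P hP => h1 _ (by
      rw [← hT ⟨P, hP⟩, ← hT ⟨P₀, hP₀⟩]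
      exact IntermediateField.subset_adjoin ℂ (Set.range fun i => T i / T ⟨P₀, hP₀⟩)
        ⟨⟨P, hP⟩, rfl⟩)
  have halgK' : ∀ (θ : L →ₐ[ℂ] Ω) (θ' : K' →ₐ[ℂ] Ω), (∀ a, θ' (algebraMap L K' a) = θ a) →
      ∀ b, IsAlgebraic θ.fieldRange (θ' b) := by
    intro θ θ' h b
    obtain ⟨p, hp0, hp⟩ := Algebra.IsAlgebraic.isAlgebraic (R := L) b
    refine ⟨p.map (θ.rangeRestrict : L →ₐ[ℂ] θ.range).toRingHom, ?_, ?_⟩
    · exact (Polynomial.map_ne_zero_iff (RingHom.injective _)).2 hp0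
    · rw [Polynomial.aeval_def, Polynomial.eval₂_map]
      have h7 : (algebraMap θ.fieldRange Ω).comp (θ.rangeRestrict : L →ₐ[ℂ] θ.range).toRingHom =
          (θ' : K' →+* Ω).comp (algebraMap L K') := RingHom.ext fun a => (h a).symm
      have h8 := Polynomial.hom_eval₂ p (algebraMap L K') (θ' : K' →+* Ω) b
      rw [Polynomial.aeval_def] at hp
      rw [hp, map_zero] at h8
      rw [h7]
      exact h8.symm
  refine h2 K hK (σ'.comp (IsScalarTower.toAlgHom ℂ K K')) (fun b => halgK' σ σ' h3 _) fun b => ?_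
  have h6 : σ'.comp (IsScalarTower.toAlgHom ℂ K K') b = τ' (algebraMap K K' b) := h5 b
  rw [h6]
  exact halgK' τ τ' h4 _


end

end Pool.Agent.Run7.h260.LQ
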