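import Pool.Agent.N162.GP.Facts

/-!
# Few generic points impose independent conditions on the logarithmic canonical forms

Variants of `ind_` (`Pool/Agent/N162/GP/Main.lean`) and `inx_` (`Pool/Agent/N339/GP/Inx.lean`): the
degree `m` of the forms in the relation is different from the degree `m'` of the canonical forms which
exclude the curves of low degree on `V`.
-/

set_option autoImplicit false
set_option linter.unusedSectionVars false

open FF Pool.Agent.W603.LV Pool.Agent.Y184.NT Pool.Agent.N162.BC IntermediateField MvPolynomial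
open Pool.Agent.W602.GT
open Pool.Agent.N162.CV (PRel MonicY)
open Pool.Agent.N162.HN (Crv Good At mu pr act pt Prj sub sub_hom aeval_sub pt_inj pt_act pt_aeval
  adjoin_act StB1 StCUR)
open Pool.Agent.N162.GP

namespace Pool.Agent.Run7.h260.LQ

/-- Few generic points of `V` impose independent conditions on the forms of degree `m`, if `V` is not
covered by curves of low degree because of its canonical forms of degree `m'`. -/
theorem lind_ (hB1 : StB1) (hCUR : StCUR) (hPRJ : StPRJ) (hGM : StGM) (hGC : StGC) (hGE : StGE)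
    (hGL : StGL) (hCRD : StCRD) (M n m m' N D t : ℕ) (K Ω : Type) [Field K] [Algebra ℂ K] [Field Ω]
    [Algebra ℂ Ω] [IsAlgClosed Ω] (x : Fin (M + 2) → K) (ω₀ : (Fin n → Derivation ℂ K K) → K)
    (hM : 1 ≤ M) (hm : 7 * N + 4 ≤ m) (hN : (M + 1) * N < m + M + 2) (hD : D + N ≤ m + 2)
    (hm' : N ≤ m' + 1) (hx0 : x 0 = 1) (hgen : IntermediateField.adjoin ℂ (Set.range x) = ⊤)
    (hK : Algebra.trdeg ℂ K = n) (hΩ : Algebra.trdeg ℂ Ω = t) (hcut : CutBy D x)
    (hadj : Adj m' n x ω₀) (S : Finset (K →ₐ[ℂ] Ω)) (lam : (K →ₐ[ℂ] Ω) → Ω) (hS : S.Nonempty)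
    (hlam : ∀ σ ∈ S, lam σ ≠ 0) (hcard : S.card < (N + 1) * (m + 2 - N)) :
    ¬ ∀ P : MvPolynomial (Fin (M + 2)) ℂ, P.IsHomogeneous m →
      ∑ σ ∈ S, lam σ * σ (aeval x P) = 0 := by
  classical
  intro hrel
  have hcΩ : CharZero Ω := charZero_of_injective_algebraMap (algebraMap ℂ Ω).injective
  have hcK : CharZero K := charZero_of_injective_algebraMap (algebraMap ℂ K).injective
  obtain ⟨B, B', A, hBB', hB'B, hB0, hA, -⟩ := hB1 M Ω (K →ₐ[ℂ] Ω) S (pt x) lam m N (X 1) hM hS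
    (fun σ _ => by
      change σ (x 0) = 1
      rw [hx0, map_one]) (pt_inj hgen).injOn hlam (rel_ext hrel) hm hcard
    ⟨Pi.single 1 1, by simp, by simp⟩
  obtain ⟨y, hy⟩ : ∃ y, y = act B x := ⟨_, rfl⟩
  have hy0 : y 0 = 1 := by
    rw [hy]
    unfold act
    rw [Finset.sum_eq_single 0]
    · rw [hB0, if_pos rfl, hx0]
      simp
    · intro j _ hj
      rw [hB0, if_neg hj]
      simp
    · intro h
      exact absurd (Finset.mem_univ _) h
  have hgy : IntermediateField.adjoin ℂ (Set.range y) = ⊤ := by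
    rw [hy]
    exact adjoin_act hB'B hgen
  obtain ⟨hcy, hay⟩ := hCRD M n m' D K x ω₀ B B' hBB' hB'B hcut hadj
  rw [← hy] at hcy hay
  have hpt : ∀ σ : K →ₐ[ℂ] Ω, act B (pt x σ) = pt y σ := fun σ => by rw [hy, pt_act]
  simp only [hpt] at hA
  have hinj : Function.Injective (pt y : (K →ₐ[ℂ] Ω) → Fin (M + 2) → Ω) := pt_inj hgy
  have hrely : ∀ P : MvPolynomial (Fin (M + 2)) Ω, P.IsHomogeneous m →
      ∑ σ ∈ S, lam σ * eval (pt y σ) P = 0 := rel_ext fun P hP => by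
    rw [hy]
    have h1 := hrel (sub B P) (sub_hom hP B)
    simp only [aeval_sub] at h1
    exact h1
  obtain ⟨S', hS'⟩ : ∃ S', S' = S.image (pt y : (K →ₐ[ℂ] Ω) → Fin (M + 2) → Ω) := ⟨_, rfl⟩
  obtain ⟨lam', hlam'⟩ : ∃ lam' : (Fin (M + 2) → Ω) → Ω, ∀ σ : K →ₐ[ℂ] Ω, lam' (pt y σ) = lam σ :=
    ⟨Function.extend (pt y) lam 0, fun σ => hinj.extend_apply _ _ _⟩
  have hmem : ∀ p ∈ S', ∃ σ ∈ S, pt y σ = p := fun p hp => by
    rw [hS'] at hp
    exact Finset.mem_image.1 hp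
  have hS0 : ∀ p ∈ S', p 0 = 1 := by
    intro p hp
    obtain ⟨σ, _, rfl⟩ := hmem p hp
    change σ (y 0) = 1
    rw [hy0, map_one]
  obtain ⟨r, C, h1, h2, h3, h4⟩ := hCUR M Ω A hM (fun l => (hA l).1) (fun l => (hA l).2.1)
  obtain ⟨t₀, G, hG, hGi⟩ := hPRJ M r Ω A C hM (fun l => ⟨(hA l).1, (hA l).2.1⟩) ⟨h1, h2, h3, h4⟩ S'
    hS0
  obtain ⟨i, T, hTS, hTne, hTon, hgi, hTc⟩ := hGM M m N r Ω S' lam' _ _ A t₀ G hM hm hN
    (by rw [hS']; exact hS.image _) (by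
      rw [hS']
      exact lt_of_le_of_lt Finset.card_image_le hcard) (fun p hp => ⟨hS0 p hp, by
        obtain ⟨σ, hσ, rfl⟩ := hmem p hp
        rw [hlam']
        exact hlam σ hσ⟩) (fun P hP => by
        rw [hS', Finset.sum_image fun a _ b _ hab => hinj hab]
        simp only [hlam']
        exact hrely P hP) (fun l => ⟨(hA l).1, (hA l).2.1, (hA l).2.2.1, fun p hp => by
        obtain ⟨σ, hσ, rfl⟩ := hmem p hp
        exact (hA l).2.2.2 σ hσ⟩) hG hGi
  have hcard' : (C i).deg * D < T.card := by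
    rcases Nat.eq_zero_or_pos (C i).deg with h0 | h0
    · rw [h0, zero_mul]
      exact hTne.card_pos
    · refine lt_of_lt_of_le (Nat.mul_lt_mul_of_pos_left ?_ h0) hTc
      omega
  obtain ⟨φ, hφ, hφy⟩ := hGC M D K Ω y hy0 hgy hcy (C i) T (fun p hp => ⟨hTon p hp, by
    obtain ⟨σ, _, h⟩ := hmem p (hTS hp)
    exact ⟨σ, h.symm⟩⟩) hcard'
  exact nom hGE hGL hy0 hgy hK hΩ hay (C i) φ hφ hφy (by omega)


/-- `lind_` with all the parts. -/
theorem lind (M n m m' N D t : ℕ) (K Ω : Type) [Field K] [Algebra ℂ K] [Field Ω]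
    [Algebra ℂ Ω] [IsAlgClosed Ω] (x : Fin (M + 2) → K) (ω₀ : (Fin n → Derivation ℂ K K) → K)
    (hM : 1 ≤ M) (hm : 7 * N + 4 ≤ m) (hN : (M + 1) * N < m + M + 2) (hD : D + N ≤ m + 2)
    (hm' : N ≤ m' + 1) (hx0 : x 0 = 1) (hgen : IntermediateField.adjoin ℂ (Set.range x) = ⊤)
    (hK : Algebra.trdeg ℂ K = n) (hΩ : Algebra.trdeg ℂ Ω = t) (hcut : CutBy D x)
    (hadj : Adj m' n x ω₀) (S : Finset (K →ₐ[ℂ] Ω)) (lam : (K →ₐ[ℂ] Ω) → Ω) (hS : S.Nonempty)
    (hlam : ∀ σ ∈ S, lam σ ≠ 0) (hcard : S.card < (N + 1) * (m + 2 - N)) :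
    ¬ ∀ P : MvPolynomial (Fin (M + 2)) ℂ, P.IsHomogeneous m →
      ∑ σ ∈ S, lam σ * σ (aeval x P) = 0 :=
  lind_ Pool.Agent.N162.HN.fB1 Pool.Agent.N162.HN.fCUR fPRJ fGM fGC fGE fGL fCRD M n m m' N D t K Ω x ω₀ hM hm hN hD hm' hx0 hgen hK
    hΩ hcut hadj S lam hS hlam hcard

/-- The same for all algebraically closed fields. -/
theorem linx (M n m m' N D : ℕ) (K Ω : Type) [Field K] [Algebra ℂ K] [Field Ω]
    [Algebra ℂ Ω] [IsAlgClosed Ω] (x : Fin (M + 2) → K) (ω₀ : (Fin n → Derivation ℂ K K) → K)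
    (h1 : 1 ≤ M) (h2 : 7 * N + 4 ≤ m) (h3 : (M + 1) * N < m + M + 2) (h4 : D + N ≤ m + 2)
    (hm' : N ≤ m' + 1) (hx0 : x 0 = 1) (hadj : IntermediateField.adjoin ℂ (Set.range x) = ⊤)
    (htr : Algebra.trdeg ℂ K = n) (hcut : CutBy D x)
    (hAdj : Adj m' n x ω₀) (S : Finset (K →ₐ[ℂ] Ω)) (lam : (K →ₐ[ℂ] Ω) → Ω) (hS : S.Nonempty)
    (hlam : ∀ σ ∈ S, lam σ ≠ 0) (hcard : S.card < (N + 1) * (m + 2 - N)) :
    ¬ ∀ P : MvPolynomial (Fin (M + 2)) ℂ, P.IsHomogeneous m →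
      ∑ σ ∈ S, lam σ * σ (aeval x P) = 0 := by
  classical
  intro hrel
  let T : Set Ω := (⋃ σ ∈ S, Set.range fun j => σ (x j)) ∪ lam '' (S : Set (K →ₐ[ℂ] Ω))
  have hT : T.Finite := by
    apply Set.Finite.union
    · exact Set.Finite.biUnion S.finite_toSet fun σ _ => Set.finite_range _
    · exact S.finite_toSet.image lam
  let F₁ : IntermediateField ℂ Ω := IntermediateField.adjoin ℂ T
  have hfg : F₁.FG := IntermediateField.fg_adjoin_of_finite hT
  have : Algebra.EssFiniteType ℂ F₁ := IntermediateField.essFiniteType_iff.mpr hfg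
  let Ω₁ : IntermediateField F₁ Ω := algebraicClosure F₁ Ω
  have : IsAlgClosed Ω₁ := IsAlgClosure.isAlgClosed F₁
  have : FinTrdeg ℂ Ω₁ := FinTrdeg.trans ℂ F₁ Ω₁
  obtain ⟨t, ht⟩ := Cardinal.lt_aleph0.1 (trdeg_lt_aleph0 ℂ Ω₁)
  have hmem : ∀ z ∈ F₁, z ∈ Ω₁ := fun z hz => Ω₁.algebraMap_mem ⟨z, hz⟩
  have hσ : ∀ σ ∈ S, ∀ a : K, σ a ∈ Ω₁ := by
    intro σ hσ a
    apply hmem
    have h5 : (IntermediateField.adjoin ℂ (Set.range x)).map σ ≤ F₁ := by
      rw [IntermediateField.adjoin_map]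
      apply IntermediateField.adjoin.mono
      rintro _ ⟨_, ⟨j, rfl⟩, rfl⟩
      left
      exact Set.mem_biUnion hσ ⟨j, rfl⟩
    apply h5
    refine ⟨a, ?_, rfl⟩
    have : a ∈ IntermediateField.adjoin ℂ (Set.range x) := by
      rw [hadj]
      exact IntermediateField.mem_top
    exact this
  have hl : ∀ σ ∈ S, lam σ ∈ Ω₁ := by
    intro σ hσ
    apply hmem
    apply IntermediateField.subset_adjoin
    right
    exact ⟨σ, hσ, rfl⟩
  let val : Ω₁ →ₐ[ℂ] Ω := Ω₁.val.restrictScalars ℂ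
  have hval : Function.Injective val := fun a b hab => Subtype.ext hab
  let g : {σ // σ ∈ S} → (K →ₐ[ℂ] Ω₁) := fun σ =>
    { toFun := fun a => ⟨σ.1 a, hσ σ.1 σ.2 a⟩
      map_one' := Subtype.ext (map_one σ.1)
      map_mul' := fun a b => Subtype.ext (map_mul σ.1 a b)
      map_zero' := Subtype.ext (map_zero σ.1)
      map_add' := fun a b => Subtype.ext (map_add σ.1 a b)
      commutes' := fun z => Subtype.ext (σ.1.commutes z) }
  have hg : ∀ σ, val.comp (g σ) = σ.1 := fun σ => AlgHom.ext fun a => rfl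
  have hginj : Function.Injective g := by
    intro a b hab
    apply Subtype.ext
    rw [← hg a, ← hg b, hab]
  let lam₁ : (K →ₐ[ℂ] Ω₁) → Ω₁ := fun τ =>
    if hτ : val.comp τ ∈ S then ⟨lam (val.comp τ), hl _ hτ⟩ else 0
  have hlam₁ : ∀ σ : {σ // σ ∈ S}, val (lam₁ (g σ)) = lam σ.1 := by
    intro σ
    have hτ : val.comp (g σ) ∈ S := by
      rw [hg]
      exact σ.2
    have : lam₁ (g σ) = ⟨lam (val.comp (g σ)), hl _ hτ⟩ := dif_pos hτ
    rw [this]
    change lam (val.comp (g σ)) = lam σ.1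
    rw [hg]
  refine lind M n m m' N D t K Ω₁ x ω₀ h1 h2 h3 h4 hm' hx0 hadj htr ht hcut hAdj (S.attach.image g) lam₁
    (by
      rw [Finset.image_nonempty, Finset.attach_nonempty_iff]
      exact hS) ?_ ?_ ?_
  · intro τ hτ
    rw [Finset.mem_image] at hτ
    obtain ⟨σ, _, rfl⟩ := hτ
    intro h0
    apply hlam σ.1 σ.2
    rw [← hlam₁ σ, h0, map_zero]
  · refine lt_of_le_of_lt Finset.card_image_le ?_
    rw [Finset.card_attach]
    exact hcard
  · intro P hP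
    apply hval
    rw [map_zero, map_sum, Finset.sum_image fun a _ b _ hab => hginj hab]
    rw [← hrel P hP, ← Finset.sum_attach S]
    refine Finset.sum_congr rfl fun σ _ => ?_
    rw [map_mul, hlam₁]
    rfl


end Pool.Agent.Run7.h260.LQ
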