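import Pool.Agent.Run7.h260.LQ.Sep
import Pool.Agent.N162.GQ.Deg
import Pool.Agent.N78.GQ.Gon
import Pool.Agent.N145.SX.MOne

/-!
# Varieties dominated by products of pairs of low degree and a curve
-/

set_option autoImplicit false
set_option linter.unusedSectionVars false
set_option linter.overlappingInstances false
set_option linter.unusedVariables false

open FF IntermediateField Module
open Pool.Agent.W602.GT (Divisorial IsPluri KodGe LogSec Psef)
open Pool.Agent.W619.PL (IsA1Uniruled)
open Pool.Agent.R882.LT (LogGenusZero)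
open Pool.Agent.N145.SX (SepX)
open Pool.Agent.N162.GQ (Factor deg deg_eq)

namespace Pool.Agent.Run7.h260.LQ

/-- The open variety `X°` with the function field `E`, of dimension `n`, and the boundary `BE` (the set
of the places without centre on `X°`) is of one of the following types. (a) It belongs to a pair
`(V, B)` of low degree (`LowDegreePair`), where `m ≥ 7 N + 4`, `(M + 1) N < m + M + 2`, `D + N ≤ m + 2`,
`N ≤ m' + 1` and `g ≤ (N + 1) (m + 2 - N)`. (b) Its function field is the one of a variety in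
projective `(M + 1)`-space which is cut out by equations of degree at most `D` and has the canonical
forms `P(x) ω₀` for all forms `P` of degree `m` (`LowDegree`), where `m ≥ 7 N + 4`,
`(M + 1) N < m + M + 2`, `D + N ≤ m + 2` and `g ≤ (N + 1) (m + 2 - N)`, or (`n = 1`) the one of a curve
of gonality at least `g` (`Factor`); the boundary is arbitrary. -/
def PairFactor (E : Type) [Field E] [Algebra ℂ E] (n g : ℕ) (BE : Place ℂ E → Prop) : Prop :=
  (∃ (M m m' D N : ℕ) (x : Fin (M + 2) → E), LowDegreePair n m m' D BE x ∧ 1 ≤ M ∧ 7 * N + 4 ≤ m ∧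
    (M + 1) * N < m + M + 2 ∧ D + N ≤ m + 2 ∧ N ≤ m' + 1 ∧ g ≤ (N + 1) * (m + 2 - N)) ∨
  Factor E n g

theorem sep_pairFactor {E : Type} [Field E] [Algebra ℂ E] {n g : ℕ} {BE : Place ℂ E → Prop}
    (h : PairFactor E n g BE) {z : Fin n → E} (hz : IsTranscendenceBasis ℂ z) : SepX z BE g := by
  rcases h with ⟨M, m, m', D, N, x, h, hM, hm, hN, hD, hm', hg⟩ | h
  · choose e he using fun j => Pool.Agent.N383.GP.exists_dual hz.1 j
    exact Pool.Agent.N162.GQ.SepX.mono (sepX_pair h hM hm hN hD hm' (e := e) hz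
      (fun i j => by rw [he]; simp [eq_comm])) hg
  · exact Pool.Agent.N162.GQ.sep_factor Pool.Agent.N78.GQ.gon_ h BE z hz

theorem ess_pairFactor {E : Type} [Field E] [Algebra ℂ E] {n g : ℕ} {BE : Place ℂ E → Prop}
    (h : PairFactor E n g BE) : Algebra.EssFiniteType ℂ E := by
  rcases h with ⟨M, m, m', D, N, x, h, -⟩ | h
  · exact Pool.Agent.N162.GP.ess_of_gen h.gen
  · exact Pool.Agent.N162.GQ.ess_factor h

theorem dim_pairFactor {E : Type} [Field E] [Algebra ℂ E] {n g : ℕ} {BE : Place ℂ E → Prop}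
    (h : PairFactor E n g BE) : Algebra.trdeg ℂ E = n := by
  rcases h with ⟨M, m, m', D, N, x, h, -⟩ | h
  · exact h.dim
  · exact Pool.Agent.N162.GQ.dim_factor h

/-- The place `Q` of the function field `K` of the product lies over a place of `F i`, `i < k`,
without centre on `X° i`, or over a point in `B`: it has no centre on the product of the `X° i` and
the open curve. -/
def ProductBoundary {K : Type} [Field K] [Algebra ℂ K] {k : ℕ}
    {F : Fin (k + 1) → IntermediateField ℂ K}
    (BX : ∀ i : Fin k, Place ℂ (F i.castSucc) → Prop) (B : Set (Place ℂ (F (Fin.last k))))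
    (Q : Place ℂ K) : Prop :=
  (∃ (i : Fin k) (P : Place ℂ (F i.castSucc)) (e : ℕ), BX i P ∧ Over Q P e) ∨
  ∃ p ∈ B, ∃ e : ℕ, Over Q p e

section

variable {K : Type} [Field K] [Algebra ℂ K] [Algebra.EssFiniteType ℂ K] {k : ℕ} {n g : Fin k → ℕ}
  {F : Fin (k + 1) → IntermediateField ℂ K} [IsFF ℂ (F (Fin.last k))]
  {BX : ∀ i : Fin k, Place ℂ (F i.castSucc) → Prop}
  (hE : ∀ i : Fin k, PairFactor (F i.castSucc) (n i) (g i) (BX i))
  (hF : ⨆ i, F i = ⊤) (hK : Algebra.trdeg ℂ K = ((∑ i, n i) + 1 : ℕ))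
  {B : Set (Place ℂ (F (Fin.last k)))} (hBf : B.Finite)
  {L : Type} [Field L] [Algebra ℂ L] [Algebra L K] [IsScalarTower ℂ L K] [FiniteDimensional L K]
  {BL : Place ℂ L → Prop}
  (hB : ∀ (P : Place ℂ L) (Q : Place ℂ K) (e : ℕ), Over Q P e → (BL P ↔ ProductBoundary BX B Q))

include hE hF hK hBf hB

theorem prod_genus (hr : ∀ i : Fin k, deg F L i.castSucc < g i) :
    [LogGenusZero L ((∑ i, n i) + 1) BL, ¬ KodGe ℂ L ((∑ i, n i) + 1) BL 0,
      ¬ Psef ℂ L ((∑ i, n i) + 1) BL, IsA1Uniruled ℂ L ((∑ i, n i) + 1) BL].TFAE := by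
  haveI : ∀ i, Algebra.EssFiniteType ℂ (F i) := fun i => by
    induction i using Fin.lastCases with
    | last => exact (inferInstance : IsFF ℂ (F (Fin.last k))).ess
    | cast i => exact ess_pairFactor (hE i)
  choose x D hx hD using fun i : Fin k => Pool.Agent.Y172.exists_crd (dim_pairFactor (hE i))
  exact Pool.Agent.N145.SX.multi_zero (L := L) hF (fun i => dim_pairFactor (hE i)) hK hx hBf
    (BX := BX) (BL := BL) hB (g := g) (fun i => sep_pairFactor (hE i) (hx i)) (fun i => by
      have := hr i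
      rwa [deg_eq] at this)

theorem prod_dich (hr : ∀ i : Fin k, 2 * deg F L i.castSucc < g i) :
    [Psef ℂ L ((∑ i, n i) + 1) BL, KodGe ℂ L ((∑ i, n i) + 1) BL (∑ i, n i),
      ¬ IsA1Uniruled ℂ L ((∑ i, n i) + 1) BL].TFAE := by
  haveI : ∀ i, Algebra.EssFiniteType ℂ (F i) := fun i => by
    induction i using Fin.lastCases with
    | last => exact (inferInstance : IsFF ℂ (F (Fin.last k))).ess
    | cast i => exact ess_pairFactor (hE i)
  choose x D hx hD using fun i : Fin k => Pool.Agent.Y172.exists_crd (dim_pairFactor (hE i))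
  exact Pool.Agent.N145.SX.multi_log (L := L) hF (fun i => dim_pairFactor (hE i)) hK hx hBf
    (BX := BX) (BL := BL) hB (g := g) (fun i => sep_pairFactor (hE i) (hx i)) (fun i => by
      have := hr i
      rwa [deg_eq] at this)

end

end Pool.Agent.Run7.h260.LQ
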