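import Pool.Agent.Run7.h260.LQ.Fin
import Pool.Agent.R882.HOB

/-!
# Towers of pairs over pairs which are cut out by equations of low degree
-/

set_option autoImplicit false
set_option linter.unusedSectionVars false
set_option linter.overlappingInstances false

open FF MvPolynomial
open Pool.Agent.W602.GT
open Pool.Agent.N162.GP (CutBy Adj)
open Pool.Agent.R882.Over (IsBase FactorsThrough)
open Pool.Agent.R882.LT (PositiveL)
open Pool.Agent.R882.HO (LogGenusZero Descends A1Dominated)

namespace Pool.Agent.Run7.h260.LQ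

/-- `E` is the function field of a variety `V` of dimension `n` in projective `(M + 1)`-space, with
generic point `x`, `x 0 = 1`, and `BE` is the set of the prime divisors (on all models) in a boundary
`B` of `V`. In the chart `x 0 ≠ 0` the variety `V` is cut out (as a set) by equations of degree at most
`D`; there is a nonzero rational canonical form `ω₀` on `V` such that `P(x) ω₀` is regular on the smooth
projective models of `V` for all forms `P` of degree `m'`; and there is a nonzero rational canonical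
form `ω₁` such that `P(x) ω₁` is a section of `K_V + B` for all forms `P` of degree `m`: it is regular
outside `B`, with at most logarithmic poles along `B`. -/
structure LowDegreePair {M : ℕ} {E : Type} [Field E] [Algebra ℂ E] (n m m' D : ℕ)
    (BE : Place ℂ E → Prop) (x : Fin (M + 2) → E) : Prop where
  one : x 0 = 1
  gen : IntermediateField.adjoin ℂ (Set.range x) = ⊤
  dim : Algebra.trdeg ℂ E = n
  cut : CutBy D x
  forms : ∃ ω₀ : (Fin n → Derivation ℂ E E) → E, Adj m' n x ω₀
  logForms : ∃ ω₁ : (Fin n → Derivation ℂ E E) → E, IsPluri 1 ω₁ ∧ (∃ D, ω₁ D ≠ 0) ∧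
    ∀ P : MvPolynomial (Fin (M + 2)) ℂ, P.IsHomogeneous m →
      LogSec ℂ E n 1 BE (fun D => aeval x P * ω₁ D)

/-- `K` is the function field of a variety, with boundary `B`, which has a generically finite
dominant rational map (of any degree) to a pair `(V, BE)` as above, such that `B` contains the
preimage of `BE`. -/
def OverPair (n s : ℕ) (K : Type) [Field K] [Algebra ℂ K] (B : Place ℂ K → Prop) : Prop :=
  ∃ (M m m' N D : ℕ) (E : IntermediateField ℂ K) (BE : Place ℂ E → Prop) (x : Fin (M + 2) → E),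
    1 ≤ M ∧ 7 * N + 4 ≤ m ∧ (M + 1) * N < m + M + 2 ∧ D + N ≤ m + 2 ∧ N ≤ m' + 1 ∧
    s < (N + 1) * (m + 2 - N) ∧ LowDegreePair n m m' D BE x ∧ FiniteDimensional E K ∧
    ∀ (R : Place ℂ E) (Q : Place ℂ K) (e : ℕ), Over Q R e → BE R → B Q

/-- The towers of pairs. -/
inductive PairTower (n : ℕ)
    (Base : ∀ (K : Type) [Field K] [Algebra ℂ K], (Place ℂ K → Prop) → Prop) :
    ∀ (K : Type) [Field K] [Algebra ℂ K], (Place ℂ K → Prop) → ℕ → Prop
  | base {K : Type} [Field K] [Algebra ℂ K] {B : Place ℂ K → Prop} {s : ℕ} (h : Base K B) :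
      PairTower n Base K B s
  | overPair {K : Type} [Field K] [Algebra ℂ K] {B : Place ℂ K → Prop} {s : ℕ}
      (h : OverPair n s K B) : PairTower n Base K B s
  | cover {K : Type} [Field K] [Algebra ℂ K] {B : Place ℂ K → Prop} {s N : ℕ} (x : Fin N → K)
      (base : IsBase n x) (pos : PositiveL n B x s)
      (BE : Place ℂ (IntermediateField.adjoin ℂ (Set.range x)) → Prop)
      (proper : ∀ (P : Place ℂ (IntermediateField.adjoin ℂ (Set.range x))) (Q : Place ℂ K)
        (e : ℕ), Over Q P e → (BE P ↔ B Q))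
      (below : PairTower n Base (IntermediateField.adjoin ℂ (Set.range x)) BE
        (s / Module.finrank (IntermediateField.adjoin ℂ (Set.range x)) K)) :
      PairTower n Base K B s

theorem positiveL_mono {n N s t : ℕ} {K : Type} [Field K] [Algebra ℂ K] {B : Place ℂ K → Prop}
    {x : Fin N → K} (h : PositiveL n B x s) (hts : t ≤ s) : PositiveL n B x t := by
  intro F hF
  obtain ⟨m, hm, hd⟩ := h F hF
  exact ⟨m, hts.trans hm, hd⟩

theorem tower_aux {n : ℕ} (hn : 1 ≤ n)
    {Base : ∀ (K : Type) [Field K] [Algebra ℂ K], (Place ℂ K → Prop) → Prop}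
    (hD : Descends n Base) {K : Type} [i1 : Field K] [i2 : Algebra ℂ K] {B : Place ℂ K → Prop}
    {s : ℕ} (h : PairTower n Base K B s) : Algebra.EssFiniteType ℂ K →
    Algebra.trdeg ℂ K = (n : ℕ) →
    ∀ (L : Type) [Field L] [Algebra ℂ L] [Algebra L K] [IsScalarTower ℂ L K]
      [FiniteDimensional L K] (BL : Place ℂ L → Prop),
      (∀ (P : Place ℂ L) (Q : Place ℂ K) (e : ℕ), Over Q P e → (BL P ↔ B Q)) →
      (Module.finrank L K ≤ s → LogGenusZero L n BL → Base L BL) ∧
      (2 * Module.finrank L K ≤ s → ¬ LogGeneralType ℂ L n BL → Base L BL) := by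
  induction h with
  | @base K _ _ B s h =>
    intro _ hK L _ _ _ _ _ BL hB
    exact ⟨fun _ _ => hD K L B BL hB hK h, fun _ _ => hD K L B BL hB hK h⟩
  | @overPair K _ _ B s h =>
    intro hess hK L _ _ _ _ _ BL hB
    have hessL : Algebra.EssFiniteType ℂ L := Pool.Agent.TH466.QG.ess_below (K := K)
    obtain ⟨M, m, m', N, D, E, BE, x, hM, hm, hN, hDN, hm', hs, hV, hfin, hBE⟩ := h
    obtain ⟨ω₀, hadj⟩ := hV.forms
    obtain ⟨ω₁, hpl, hne, hsec⟩ := hV.logForms
    have hB' : ∀ (P : Place ℂ L) (Q : Place ℂ K) (R : Place ℂ E) (e e' : ℕ), Over Q P e →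
        Over Q R e' → BE R → BL P := fun P Q R e e' h1 h2 h3 => (hB P Q e h1).2 (hBE R Q e' h2 h3)
    refine ⟨fun hr hg => ?_, fun hr hg => ?_⟩
    · exfalso
      obtain ⟨ω, hω, D', hD'⟩ := lpg (K' := K) hM hm hN hDN hm' hV.one hV.gen hV.dim hV.cut hadj hB'
        hpl hne hsec (lt_of_le_of_lt hr hs)
      exact hD' (hg ω hω D')
    · exfalso
      exact hg (lgt (K' := K) hM hm hN hDN hm' hV.one hV.gen hV.dim hV.cut hadj hB' hpl hne hsec
        (lt_of_le_of_lt hr hs))
  | @cover K _ _ B s N x base pos BE proper below ih =>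
    intro hess hK L _ _ _ _ _ BL hB
    haveI := base.fin
    obtain ⟨h1, h2⟩ := Pool.Agent.R882.HO.factors_step_log hn base L hB
    have hessE : Algebra.EssFiniteType ℂ (IntermediateField.adjoin ℂ (Set.range x)) :=
      Pool.Agent.TH466.QG.ess_below (K := K)
    have hK' : Algebra.trdeg ℂ (IntermediateField.adjoin ℂ (Set.range x)) = (n : ℕ) :=
      Pool.Agent.Y184.NT.trdeg_below (K := K) hK
    have hb : 0 < Module.finrank (IntermediateField.adjoin ℂ (Set.range x)) K :=
      Module.finrank_pos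
    refine ⟨fun hs hg => ?_, fun hs hg => ?_⟩
    · have h3 := h1 (positiveL_mono pos hs) hg
      obtain ⟨j1, j2, j3, j4, hdeg⟩ := Pool.Agent.R882.HO.factor_alg L h3
      refine (ih hessE hK' L BL (Pool.Agent.R882.HO.boundary_mid L hB proper)).1 ?_ hg
      rw [Nat.le_div_iff_mul_le hb, ← hdeg]
      exact hs
    · have h3 := h2 (positiveL_mono pos hs) hg
      obtain ⟨j1, j2, j3, j4, hdeg⟩ := Pool.Agent.R882.HO.factor_alg L h3
      refine (ih hessE hK' L BL (Pool.Agent.R882.HO.boundary_mid L hB proper)).2 ?_ hg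
      rw [Nat.le_div_iff_mul_le hb, mul_assoc, ← hdeg]
      exact hs

section

variable {n s : ℕ} {K : Type} [Field K] [Algebra ℂ K] [Algebra.EssFiniteType ℂ K]
  {B : Place ℂ K → Prop} (L : Type) [Field L] [Algebra ℂ L] [Algebra L K] [IsScalarTower ℂ L K]
  [FiniteDimensional L K] {BL : Place ℂ L → Prop}

theorem tfae_one (hn : 1 ≤ n) (hK : Algebra.trdeg ℂ K = (n : ℕ))
    (hB : ∀ (P : Place ℂ L) (Q : Place ℂ K) (e : ℕ), Over Q P e → (BL P ↔ B Q))
    (h : PairTower n (fun E _ _ BE => A1Dominated n E BE) K B s) (hs : Module.finrank L K ≤ s) :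
    [LogGenusZero L n BL, ¬ KodGe ℂ L n BL 0, ¬ Psef ℂ L n BL,
      Pool.Agent.W619.PL.IsA1Uniruled ℂ L n BL, A1Dominated n L BL].TFAE := by
  have hess : Algebra.EssFiniteType ℂ L := Pool.Agent.TH466.QG.ess_below (K := K)
  exact Pool.Agent.R882.HO.neg_iff_a1 (Pool.Agent.Y184.NT.trdeg_below (K := K) hK)
    ((tower_aux hn (Pool.Agent.R882.HO.descends_a1 n) h inferInstance hK L BL hB).1 hs)

theorem tfae_two (hn : 1 ≤ n) (hK : Algebra.trdeg ℂ K = (n : ℕ))
    (hB : ∀ (P : Place ℂ L) (Q : Place ℂ K) (e : ℕ), Over Q P e → (BL P ↔ B Q))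
    (h : PairTower n (fun E _ _ BE => A1Dominated n E BE) K B s)
    (hs : 2 * Module.finrank L K ≤ s) :
    [LogGenusZero L n BL, ¬ KodGe ℂ L n BL 0, ¬ Psef ℂ L n BL,
      ¬ LogGeneralType ℂ L n BL, Pool.Agent.W619.PL.IsA1Uniruled ℂ L n BL,
      A1Dominated n L BL].TFAE := by
  have h1 := tfae_one L hn hK hB h (by omega)
  have h2 := (tower_aux hn (Pool.Agent.R882.HO.descends_a1 n) h inferInstance hK L BL hB).2 hs
  tfae_have 1 ↔ 2 := h1.out 0 1
  tfae_have 1 ↔ 3 := h1.out 0 2
  tfae_have 1 ↔ 5 := h1.out 0 3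
  tfae_have 1 ↔ 6 := h1.out 0 4
  tfae_have 4 → 6 := h2
  tfae_have 3 → 4 := Pool.Agent.R882.HO.not_lgt_of_not_psef
  tfae_finish

end

end Pool.Agent.Run7.h260.LQ
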